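import Pool.Agent.H15T.CongE2

set_option autoImplicit false

/-!
MP_8efaaa_nt: in each class `5, 6, 7` mod `8` every interval `[X, X + C X^(3/4) (1 + log X)^(3/2)]`
contains a squarefree `a` for which the system `x² + a y² = z²`, `x² - a y² = t²` has a solution in
positive integers of size at most `C a^(2/3)`.
-/

namespace Pool.Agent.Results.MP_8efaaa_nt.SmallSolutions

/-- There is a constant `C` such that for every real `X ≥ 1` and `j = 5, 6, 7` there is a squarefree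
`a ≡ j` mod `8` in `[X, X + C X^(3/4) (1 + log X)^(3/2)]` and positive integers
`x, y, z, t ≤ C a^(2/3)` with `x² + a y² = z²` and `x² = a y² + t²`. -/
theorem result : ∃ C : ℝ, 0 < C ∧ ∀ X : ℝ, 1 ≤ X → ∀ j : ℕ, j = 5 ∨ j = 6 ∨ j = 7 →
    ∃ a : ℕ, X ≤ a ∧ (a : ℝ) ≤ X + C * (X ^ (3 / 4 : ℝ) * (1 + Real.log X) ^ (3 / 2 : ℝ)) ∧
      Squarefree a ∧ a % 8 = j ∧
      ∃ x y z t : ℕ, 0 < x ∧ 0 < y ∧ 0 < z ∧ 0 < t ∧ x ^ 2 + a * y ^ 2 = z ^ 2 ∧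
        x ^ 2 = a * y ^ 2 + t ^ 2 ∧ (x : ℝ) ≤ C * (a : ℝ) ^ (2 / 3 : ℝ) ∧
        (y : ℝ) ≤ C * (a : ℝ) ^ (2 / 3 : ℝ) ∧ (z : ℝ) ≤ C * (a : ℝ) ^ (2 / 3 : ℝ) ∧
        (t : ℝ) ≤ C * (a : ℝ) ^ (2 / 3 : ℝ) := by
  obtain ⟨c1, hc1⟩ : ∃ c : ℝ, c = 3 * 330000 * 4000000 ^ 3 * Real.sqrt (440000 * 4000000 ^ 3) := ⟨_, rfl⟩
  have hc1p : 0 ≤ c1 := by rw [hc1]; positivity
  refine ⟨c1 + 3 * 4000000 ^ 4, by positivity, ?_⟩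
  intro X hX j hj
  have key : ∃ a : ℕ, X ≤ a ∧ (a : ℝ) ≤ X + c1 * (X ^ (3 / 4 : ℝ) * (1 + Real.log X) ^ (3 / 2 : ℝ)) ∧
      Squarefree a ∧ a % 8 = j ∧ ∃ H : ℕ, (H : ℝ) ≤ 3 * 4000000 ^ 4 * (a : ℝ) ^ (2 / 3 : ℝ) ∧
      Pool.Agent.H15T.Cong.Sol a H := by
    rw [hc1]
    rcases hj with rfl | rfl | rfl
    · exact Pool.Agent.H15T.Cong.exists_n2 X hX 2 3 5 (by omega)
    · exact Pool.Agent.H15T.Cong.exists_n2 X hX 1 6 6 (by omega)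
    · exact Pool.Agent.H15T.Cong.exists_n2 X hX 2 1 7 (by omega)
  obtain ⟨a, h1, h2, h3, h4, H, hH, x, y, z, t, hx, hy, hz, ht, e1, e2, bx, by', bz, bt⟩ := key
  have hlog : 0 ≤ Real.log X := Real.log_nonneg hX
  have h5 : 0 ≤ X ^ (3 / 4 : ℝ) * (1 + Real.log X) ^ (3 / 2 : ℝ) := by positivity
  have hb : ∀ m : ℕ, m ≤ H → (m : ℝ) ≤ (c1 + 3 * 4000000 ^ 4) * (a : ℝ) ^ (2 / 3 : ℝ) := by
    intro m hm
    have h6 : (m : ℝ) ≤ H := by exact_mod_cast hm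
    have h7 : 0 ≤ c1 * (a : ℝ) ^ (2 / 3 : ℝ) := by positivity
    rw [add_mul]; linarith
  refine ⟨a, h1, h2.trans ?_, h3, h4, x, y, z, t, hx, hy, hz, ht, e1, e2, hb x bx, hb y by', hb z bz,
    hb t bt⟩
  have h8 : 0 ≤ 3 * 4000000 ^ 4 * (X ^ (3 / 4 : ℝ) * (1 + Real.log X) ^ (3 / 2 : ℝ)) := by positivity
  rw [add_mul]; linarith

end Pool.Agent.Results.MP_8efaaa_nt.SmallSolutions
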